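import Pool.Agent.R612.TP.Tower

/-!
# The algebraic numbers with the square-free predicate have TP₂

The field of algebraic numbers `Qbar`, its valuations `Val` with values in `ℚ ∪ {∞}`, the condition
`Ext p v` (`v` extends the `p`-adic valuation of `ℚ`) and the set `Sqf` of the elements `a` with
`v a < 2` for all these valuations are defined in `Pool.Agent.R612.TP.Defs`.

The formula `φ(x; b, c)` with TP₂ says that there is no `u` such that `u`, `3 u - c` and
`3 u - (x - b)` are in `Sqf` and `3 u` is not in `Sqf`. A key lemma shows that, for certain `c`,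
this implies `v(x - b) > 0` for all valuations `v` above `3` with `v(c) = 0`; conversely it is
implied by `v(x - b) ≥ 2` for all `v` above `3` with `v(c) < 2`. The elements
`c_i = 9 / (1 + 10 ^ (1 / 2 ^ (i + 1)))` single out pairwise disjoint nonempty sets of places above
`3`, and the `b_j` are roots of unity of order `2 ^ (j + 1)`.
-/

set_option autoImplicit false

namespace Pool.Agent.Results.MP_74b845_lc.TreeProperty

open FirstOrder FirstOrder.Language Pool.Agent.R612.TP

/-- Function symbols: the constant `1`, the unary `-` and the binary `+`. -/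
inductive Fn : ℕ → Type
  | one : Fn 0
  | neg : Fn 1
  | add : Fn 2

/-- One unary relation symbol. -/
inductive Rl : ℕ → Type
  | sqf : Rl 1

/-- The language `{+, -, 1, Sqf}`. -/
abbrev Lang : FirstOrder.Language.{0, 0} := ⟨Fn, Rl⟩

/-- The structure `(ℚ̄; +, -, 1, Sqf)`. -/
noncomputable instance structureQbar : Lang.Structure Qbar where
  funMap := fun {_} f v => match f with
    | Fn.one => 1
    | Fn.neg => - v 0
    | Fn.add => v 0 + v 1
  RelMap := fun {_} r v => match r with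
    | Rl.sqf => v 0 ∈ Sqf

/-- The formula `φ(x; y)` has TP₂ in the theory `T`: in some model of `T` there are tuples
`b i j` and a number `k` such that for every `i` the set of the formulas `φ(x; b i j)`, `j < ω`, is
`k`-inconsistent, while for every `f` the set of the formulas `φ(x; b i (f i))`, `i < ω`, is
consistent (that is, finitely satisfiable in the model). -/
def HasTP2 {L : FirstOrder.Language.{0, 0}} (T : L.Theory) {n m : ℕ}
    (φ : L.Formula (Fin n ⊕ Fin m)) : Prop :=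
  ∃ (M : Type) (_ : L.Structure M) (_ : M ⊨ T) (b : ℕ → ℕ → Fin m → M) (k : ℕ),
    (∀ i : ℕ, ∀ J : Finset ℕ, J.card = k →
      ¬ ∃ x : Fin n → M, ∀ j ∈ J, φ.Realize (Sum.elim x (b i j))) ∧
    (∀ f : ℕ → ℕ, ∀ I : Finset ℕ,
      ∃ x : Fin n → M, ∀ i ∈ I, φ.Realize (Sum.elim x (b i (f i))))

/-- `T` has NTP₂: no formula has TP₂ in `T`. -/
def NTP2 {L : FirstOrder.Language.{0, 0}} (T : L.Theory) : Prop :=
  ∀ (n m : ℕ) (φ : L.Formula (Fin n ⊕ Fin m)), ¬ HasTP2 T φ

/-- the term `s + t` -/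
def tAdd {α : Type} (s t : Lang.Term α) : Lang.Term α := Term.func Fn.add ![s, t]

/-- the term `- s` -/
def tNeg {α : Type} (s : Lang.Term α) : Lang.Term α := Term.func Fn.neg ![s]

theorem realize_tAdd {α : Type} (v : α → Qbar) (s t : Lang.Term α) :
    (tAdd s t).realize v = s.realize v + t.realize v := rfl

theorem realize_tNeg {α : Type} (v : α → Qbar) (s : Lang.Term α) :
    (tNeg s).realize v = - s.realize v := rfl

/-- the atomic formula `Sqf(t)` -/
def aSqf {α : Type} {n : ℕ} (t : Lang.Term (α ⊕ Fin n)) : Lang.BoundedFormula α n :=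
  Relations.boundedFormula₁ (Rl.sqf : Lang.Relations 1) t

theorem realize_aSqf {α : Type} {n : ℕ} (t : Lang.Term (α ⊕ Fin n)) (v : α → Qbar)
    (xs : Fin n → Qbar) : (aSqf t).Realize v xs ↔ t.realize (Sum.elim v xs) ∈ Sqf :=
  BoundedFormula.realize_rel₁

/-- the variable `u` -/
def uu : Lang.Term ((Fin 1 ⊕ Fin 2) ⊕ Fin 1) := Term.var (Sum.inr 0)

/-- the term `3 u` -/
def uuu : Lang.Term ((Fin 1 ⊕ Fin 2) ⊕ Fin 1) := tAdd uu (tAdd uu uu)

/-- The formula `φ(x; b, c)`: for no `u` are `u`, `3 u - c`, `3 u - (x - b)` square-free and `3 u`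
not square-free. -/
def phi : Lang.Formula (Fin 1 ⊕ Fin 2) :=
  ∀' ∼((aSqf uu ⊓ ∼(aSqf uuu)) ⊓
    (aSqf (tAdd uuu (tNeg (Term.var (Sum.inl (Sum.inr 1))))) ⊓
     aSqf (tAdd uuu (tNeg (tAdd (Term.var (Sum.inl (Sum.inl 0)))
      (tNeg (Term.var (Sum.inl (Sum.inr 0)))))))))

theorem realize_phi (x : Fin 1 → Qbar) (y : Fin 2 → Qbar) :
    phi.Realize (Sum.elim x y) ↔ ∀ u : Qbar, ¬ ((u ∈ Sqf ∧ ¬ 3 * u ∈ Sqf) ∧
      (3 * u - y 1 ∈ Sqf ∧ 3 * u - (x 0 - y 0) ∈ Sqf)) := by
  unfold phi Formula.Realize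
  rw [BoundedFormula.realize_all]
  refine forall_congr' fun u => ?_
  rw [BoundedFormula.realize_not, BoundedFormula.realize_inf, BoundedFormula.realize_inf,
    BoundedFormula.realize_inf, BoundedFormula.realize_not, realize_aSqf, realize_aSqf,
    realize_aSqf, realize_aSqf]
  have e : 3 * u = u + (u + u) := by ring
  rw [e, sub_eq_add_neg, sub_eq_add_neg, sub_eq_add_neg (x 0)]
  exact Iff.rfl

/-- the parameters -/
noncomputable def bb (i j : ℕ) : Fin 2 → Qbar := ![et j, cc i]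

theorem easy {x c : Qbar} (h : ∀ v : Val, Ext 3 v → v c < 2 → 2 ≤ v x) (u : Qbar) :
    ¬ ((u ∈ Sqf ∧ ¬ 3 * u ∈ Sqf) ∧ (3 * u - c ∈ Sqf ∧ 3 * u - x ∈ Sqf)) := by
  rintro ⟨⟨h1, h2⟩, h3, h4⟩
  unfold Sqf at h2
  simp only [Set.mem_ofPred_eq, not_forall] at h2
  obtain ⟨p, hp, v, hv, h5⟩ := h2
  have h6 : 2 ≤ v (3 * u) := not_lt.1 h5
  have hp3 : p = 3 := by
    by_contra hne
    have h30 : v (3 : Qbar) = 0 := by
      have h3 : v ((3 : ℕ) : Qbar) = 0 := hv.val_nat_coprime (by norm_num) (by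
        intro h
        exact hne ((Nat.prime_dvd_prime_iff_eq hp (by norm_num)).1 h))
      exact_mod_cast h3
    rw [AddValuation.map_mul, h30, zero_add] at h6
    exact absurd (h1 p hp v hv) (not_lt.2 h6)
  subst hp3
  have h7 : v c < 2 := by
    by_contra hc
    push Not at hc
    exact absurd (h3 3 hp v hv) (not_lt.2 (AddValuation.map_le_sub v h6 hc))
  exact absurd (h4 3 hp v hv) (not_lt.2 (AddValuation.map_le_sub v h6 (h v hv h7)))

theorem rows (i j j' : ℕ) (hj : j ≠ j') (x : Fin 1 → Qbar)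
    (h1 : phi.Realize (Sum.elim x (bb i j))) (h2 : phi.Realize (Sum.elim x (bb i j'))) : False := by
  rw [realize_phi] at h1 h2
  obtain ⟨v₀, hv₀, hv₀'⟩ := exists_place i
  have hcase : v₀ (x 0 - et j) ≤ 0 ∨ v₀ (x 0 - et j') ≤ 0 := by
    by_contra hcon
    push Not at hcon
    have h3 := AddValuation.map_le_sub v₀ (min_le_left (v₀ (x 0 - et j)) (v₀ (x 0 - et j')))
      (min_le_right _ _)
    have h4 : (x 0 - et j) - (x 0 - et j') = -(et j - et j') := by ring
    rw [h4, AddValuation.map_neg] at h3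
    exact absurd (val_et_sub hv₀ hj) (not_le.2 (lt_of_lt_of_le (lt_min hcon.1 hcon.2) h3))
  have main : ∀ z : Qbar, v₀ z ≤ 0 → ∃ u : Qbar, (u ∈ Sqf ∧ ¬ 3 * u ∈ Sqf) ∧
      (3 * u - cc i ∈ Sqf ∧ 3 * u - z ∈ Sqf) := by
    intro z hz
    have hz0 : z ≠ 0 := by
      rintro rfl
      rw [AddValuation.map_zero] at hz
      exact absurd hz (not_le.2 (WithTop.coe_lt_top (0 : ℚ)))
    obtain ⟨w, hw1, hw2⟩ := key (cc i) z (cc_ne i) hz0 (fun v hv => val_cc_nonneg hv i) v₀ hv₀
      (val_cc_in hv₀ hv₀') hz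
    have e : 3 * (w / 3) = w := by field_simp
    refine ⟨w / 3, ⟨fun p hp v hv => (hw2 p hp v hv).1, fun h => ?_⟩,
      fun p hp v hv => ?_, fun p hp v hv => ?_⟩
    · rw [e] at h
      exact absurd (h 3 (by norm_num) v₀ hv₀) (not_lt.2 hw1)
    · rw [e]
      exact (hw2 p hp v hv).2.1
    · rw [e]
      exact (hw2 p hp v hv).2.2
  rcases hcase with h | h
  · obtain ⟨u, hu⟩ := main _ h
    exact h1 u hu
  · obtain ⟨u, hu⟩ := main _ h
    exact h2 u hu

theorem paths (f : ℕ → ℕ) (I : Finset ℕ) :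
    ∃ x : Fin 1 → Qbar, ∀ i ∈ I, phi.Realize (Sum.elim x (bb i (f i))) := by
  refine ⟨fun _ => ∑ l ∈ I, ee l * et (f l), fun i hi => ?_⟩
  rw [realize_phi]
  refine easy fun v hv hc => ?_
  have hc' : v (cc i) < 2 := hc
  have hU : 0 < v (al (i + 1) + 1) := by
    by_contra hn
    rw [val_cc_out hv hn] at hc'
    exact lt_irrefl _ hc'
  show 2 ≤ v (∑ l ∈ I, ee l * et (f l) - et (f i))
  rw [← Finset.add_sum_erase I _ hi]
  have e : ee i * et (f i) + ∑ l ∈ I.erase i, ee l * et (f l) - et (f i) =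
      (ee i - 1) * et (f i) + ∑ l ∈ I.erase i, ee l * et (f l) := by ring
  rw [e]
  refine AddValuation.map_le_add v ?_ (AddValuation.map_le_sum v fun l hl => ?_)
  · rw [AddValuation.map_mul, val_et, add_zero]
    exact val_ee_in hv hU
  · rw [AddValuation.map_mul, val_et, add_zero]
    have hne : l ≠ i := (Finset.mem_erase.1 hl).1
    rw [val_ee_out hv (i := l) fun h => disj hv hne h hU]

/-- The complete theory of `(ℚ̄; +, -, 1, Sqf)` does not have NTP₂. -/
theorem result : ¬ NTP2 (Lang.completeTheory Qbar) := by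
  intro h
  refine h 1 2 phi ⟨Qbar, inferInstance, inferInstance, bb, 2, ?_, paths⟩
  rintro i J hJ ⟨x, hx⟩
  obtain ⟨j, j', hne, rfl⟩ := Finset.card_eq_two.1 hJ
  exact rows i j j' hne x (hx j (by simp)) (hx j' (by simp))

end Pool.Agent.Results.MP_74b845_lc.TreeProperty
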